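import Pool.Agent.V11201.PT.Sse

set_option autoImplicit false

/-!
# Small-set expansion: reductions by circuits with few NOT gates

An NP-hardness proof for `SSE(η, δ)` gives in particular a reduction from parity. We consider reductions
whose output, a regular graph, is given by the list of its edges: for every `j < M` the `j`-th edge is a
function of the input `x ∈ {0,1}^N`. The length `M` of the lists and the size of the circuits are arbitrary.

Result: If each edge of the list is determined by `k` bits which are computed by a circuit of AND and OR gates
   (or any other monotone gates) with `t` NOT gates, then `(k + 1) 2 ^ t ≥ c N + 1`,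
`c = (1 - ε - η) m / |V|`, if there is a set of `m` vertices with expansion at most `ε` for even inputs, and
all these sets have expansion at least `1 - η` for odd inputs. So if the edges of the lists are described
by `k` bits each (`k = O(log N)` for graphs of polynomial size), some of the circuits for single edges have
at least `log₂ (c N) - log₂ (k + 1)` NOT gates. This is optimal up to the lower order term: circuits of
polynomial size can always be changed into circuits of polynomial size with `⌈log₂ (N + 1)⌉` NOT gates
(Markov, Fischer).

Idea of the proof. The lists of two neighbouring inputs differ in at least `c M` of their `M` entries,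
since at least `(1 - ε) d m / 2` edges of the yes instance, and at most `η d m / 2` edges of the no instance
lie in the set `S` for the yes instance, and `d m / 2 = M m / |V|`. Apply this to the `N` steps of a
maximal chain of the cube. By Markov's argument the outputs of a circuit with `t` NOT gates and `k`
outputs change at most `(k + 1) 2 ^ t - 1` times along a chain.
-/

namespace Pool.Agent.Results.MP_8d8c46_lc.FewNegations

open Finset
open scoped Classical

/-- the degree of `v` in the graph with the edges `e 1, …, e M` (given as ordered pairs) -/
noncomputable def degree {V : Type} {M : ℕ} (e : Fin M → V × V) (v : V) : ℕ :=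
  (univ.filter fun j => (e j).1 = v).card + (univ.filter fun j => (e j).2 = v).card

/-- the number of edges with exactly one end in `S` -/
noncomputable def boundary {V : Type} {M : ℕ} (e : Fin M → V × V) (S : Finset V) : ℕ :=
  (univ.filter fun j => ((e j).1 ∈ S ∧ (e j).2 ∉ S) ∨ ((e j).1 ∉ S ∧ (e j).2 ∈ S)).card

/-- The graphs `E x`, `x ∈ {0,1}^N`, with the vertex set `V`, each given by a list of `M` edges, are
`d`-regular and a reduction from parity: if `x` has an even number of ones, then some set of `m` vertices
has expansion at most `ε`, and otherwise all sets of `m` vertices have expansion at least `1 - η`.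
(Loops and multiple edges are allowed, so simple graphs are a special case.) -/
structure FromParity {V : Type} {N M : ℕ} (E : (Fin N → Bool) → Fin M → V × V) (d m : ℕ) (ε η : ℝ) :
    Prop where
  regular : ∀ x v, degree (E x) v = d
  even : ∀ x, Even (univ.filter fun i => x i = true).card →
    ∃ S : Finset V, S.card = m ∧ (boundary (E x) S : ℝ) ≤ ε * (d * m)
  odd : ∀ x, Odd (univ.filter fun i => x i = true).card →
    ∀ S : Finset V, S.card = m → (1 - η) * (d * m) ≤ boundary (E x) S

/-- the function `e` is determined by the bits `g 1, …, g k` -/
def DeterminedBy {N k : ℕ} {β : Type} (e : (Fin N → Bool) → β) (g : Fin k → (Fin N → Bool) → Bool) : Prop :=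
  ∀ x y, (∀ l, g l x = g l y) → e x = e y

/-- The bits `g 1, …, g k` are computed by a circuit with `t` NOT gates: the input of the `i`-th NOT
gate is a monotone function `m i` of the variables and of the values `neg j`, `j < i`, of the preceding
NOT gates, and the bits are monotone functions `o l` of the variables and of the values of all NOT
gates. (`m i` and `o l` are what the AND and OR gates, or any other monotone gates, compute; their
number is not bounded.) -/
def FewNegations {N : ℕ} (t k : ℕ) (g : Fin k → (Fin N → Bool) → Bool) : Prop :=
  ∃ (neg : Fin t → (Fin N → Bool) → Bool) (m : Fin t → (Fin N → Bool) → (Fin t → Bool) → Bool)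
    (o : Fin k → (Fin N → Bool) → (Fin t → Bool) → Bool),
    (∀ i x y u v, x ≤ y → u ≤ v → m i x u ≤ m i y v) ∧
    (∀ l x y u v, x ≤ y → u ≤ v → o l x u ≤ o l y v) ∧
    (∀ i x, neg i x = !(m i x fun j => if j < i then neg j x else false)) ∧
    ∀ l x, g l x = o l x fun j => neg j x

open Pool.Agent.V11201.PT (Inn bd inner_eq dm_eq)

/-- Let `x ↦ E x` be a reduction from the parity of `N` bits to `d`-regular graphs on `V`, `d ≥ 1`, given by
lists of `M` edges, such that some set of `m ≥ 1` vertices has expansion at most `ε` for even inputs, and
all these sets have expansion at least `1 - η` for odd inputs. If every edge of the list is determined by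
`k` bits which are computed by a circuit with `t` NOT gates (one circuit for every edge), then
`(1 - ε - η) (m / |V|) N + 1 ≤ (k + 1) 2 ^ t`. -/
theorem result : ∀ (V : Type) [Fintype V] (N M d m : ℕ) (E : (Fin N → Bool) → Fin M → V × V) (ε η : ℝ),
    1 ≤ d → 1 ≤ m → FromParity E d m ε η →
    ∀ (k t : ℕ) (g : Fin M → Fin k → (Fin N → Bool) → Bool), (∀ j, DeterminedBy (fun x => E x j) (g j)) →
      (∀ j, FewNegations t k (g j)) →
      (1 - ε - η) * (m / Fintype.card V : ℝ) * N + 1 ≤ (k + 1) * 2 ^ t := by
  intro V _ N M d m E ε η hd hm hE k t g hg h
  have : Nonempty V := by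
    obtain ⟨S, hS⟩ : ∃ S : Finset V, S.card = m := by
      by_cases h : Even (univ.filter fun i : Fin N => (fun _ => false : Fin N → Bool) i = true).card
      · obtain ⟨S, hS, _⟩ := hE.even _ h
        exact ⟨S, hS⟩
      · exact absurd (by simp) h
    exact (card_pos.1 (by omega : 0 < S.card)).to_type
  have hyes : ∀ x, Even (univ.filter fun i => x i = true).card →
      ∃ a : {S : Finset V // S.card = m}, (1 - ε) * (m / Fintype.card V : ℝ) * M ≤
        (univ.filter fun j => Inn a.1 (E x j)).card := by
    intro x hx
    obtain ⟨S, hS, h⟩ := hE.even x hx
    refine ⟨⟨S, hS⟩, ?_⟩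
    rw [inner_eq (hE.regular x) hS, mul_assoc, ← dm_eq (m := m) (hE.regular x)]
    have h' : (bd (E x) S : ℝ) ≤ ε * (d * m) := h
    linarith
  have hno : ∀ x, Odd (univ.filter fun i => x i = true).card →
      ∀ a : {S : Finset V // S.card = m}, ((univ.filter fun j => Inn a.1 (E x j)).card : ℝ) ≤
        η * (m / Fintype.card V : ℝ) * M := by
    rintro x hx ⟨S, hS⟩
    rw [inner_eq (hE.regular x) hS, mul_assoc, ← dm_eq (m := m) (hE.regular x)]
    have h' : (1 - η) * (d * m) ≤ (bd (E x) S : ℝ) := hE.odd x hx S hS
    linarith
  have hc : (1 - ε - η) * (m / Fintype.card V : ℝ) =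
      (1 - ε) * (m / Fintype.card V : ℝ) - η * (m / Fintype.card V : ℝ) := by ring
  have hM : 0 < M := by
    have h1 := Pool.Agent.V11201.PT.two_M (hE.regular fun _ => false)
    have h2 : 0 < d * Fintype.card V := Nat.mul_pos (by omega) Fintype.card_pos
    omega
  rw [hc]
  exact Pool.Agent.V11201.PT.list_neg (S := fun (a : {S : Finset V // S.card = m}) e => Inn a.1 e)
    hM hyes hno hg h

end Pool.Agent.Results.MP_8d8c46_lc.FewNegations
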