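import Pool.Agent.V11163.SS.Main

/-!
# Small-set expansion is hard for read-once tensor networks, even with cancellations

A tree tensor network `Net K V A W` (`Pool/Agent/TH700/PA/Defs.lean`) has leaves that read one
symbol of the alphabet `A` each (with a vector in `K ^ W` for each symbol); an inner node combines
the vectors of its two children by an arbitrary bilinear map. It accepts the input `x` if a linear
form of the vector of the root is not zero. The field `K` and the weights are arbitrary, so there
may be cancellations. The tree is arbitrary; if every right child is a leaf then this is a matrix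
product (a weighted ordered read-once branching program, for any order). The bond dimension is
`card W`.

The input graphs `Gr x` have `n` blocks of `q` vertices (so `N = n q` vertices) and a perfect matching
`x (u, v)` between any two blocks; they are regular of degree `n - 1`. A leaf reads the matching
between one pair of blocks. There is a constant `Γ` such that for all `g ≥ 1`, `q ≥ Γ g ^ 6` and
`n ≥ Γ g ^ 2` networks with any number of nodes which read every matching at most once, reject all
graphs in which every set of `n = N / q` vertices has expansion at least `1 - 1 / g`, and accept all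
graphs in which some set of `n` vertices has expansion `0`, have bond dimension at least
`q ^ (n / (Γ g ^ 2))`. So with `η = 1 / g` they do not solve `SSE(η, δ)` for any `δ = 1 / q` below
`η ^ 6 / Γ` (even with expansion `0` instead of `η` in the yes case) unless their bond dimension is
exponential in the number of vertices (for fixed `g` and `q`). This holds up to the factor `2 ^ μ` also
for random networks which never accept a graph of the first kind and accept every graph of the second
kind with probability at least `2 ^ (- μ)` (the deterministic case is the one point set, `μ = 0`).

Conversely the graphs with a set of `n` vertices of expansion `0` are recognized by a linear network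
over `ℚ` with bond dimension `q ^ n` which reads every matching once.

**Proof.** The nodes of the tree give a partition of the pairs of blocks into `t = 9216 g ^ 2 + 1` parts
of rank at most the cube of the bond dimension and with at most `2 y ^ 2` pairs, `y = n / (48 g)`. For
each part take a random vertex in every block and random matchings which match these vertices; this
graph has a component of `n` vertices. Consider a set `S` of `n` vertices of the mixture of these
graphs. By exponential moments, with probability `1 - (4 q) ^ (- n) q ^ (- n)` it contains the chosen vertices
for fewer than `3 n` pairs (part, block), and fewer than `n ^ 2 / (256 g ^ 2)` of the matchings have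
another edge inside `S`. Then (as few blocks contain more than `16 g` vertices of `S`) it contains at
most `n ^ 2 / (4 g)` edges, so its expansion is at least `1 - 1 / g`. By the replacement lemma
(`rand_density`, from the starting files) among any `t * rank + 1` accepted graphs with such a
component some mixture of different ones is accepted.
-/

set_option autoImplicit false

namespace Pool.Agent.Results.MP_8d8c46_lc.TensorNetworks

open Pool.Agent.TH700.PA (Net)
open Pool.Agent.V11163.SS

/-- (1) The graphs `Gr x` are regular of degree `n - 1`. (2) The lower bound: `cut G S` is the number of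
edges with exactly one endpoint in `S`. (3) The upper bound. -/
theorem result :
    (∀ (n q : ℕ) (x : E n → Equiv.Perm (Fin q)) (v : Fin n × Fin q),
      Nat.card {w // (Gr x).Adj v w} = n - 1) ∧
    (∃ Γ : ℕ, ∀ g q n : ℕ, 1 ≤ g → Γ * g ^ 6 ≤ q → Γ * g ^ 2 ≤ n →
      ∀ (μ : ℕ) (Ω : Type) [Fintype Ω] [Nonempty Ω] (K W : Ω → Type) [∀ ρ, Field (K ρ)]
        [∀ ρ, Fintype (W ρ)] (T : ∀ ρ, Net (K ρ) (E n) (Equiv.Perm (Fin q)) (W ρ))
        (a : ∀ ρ, W ρ → K ρ),
        (∀ ρ e, (T ρ).reads e ≤ 1) →
        (∀ ρ x, (∀ S : Finset (Fin n × Fin q), S.card = n →
          (g - 1) * ((n - 1) * S.card) ≤ g * cut (Gr x) S) → (T ρ).value (a ρ) x = 0) →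
        (∀ x, (∃ S : Finset (Fin n × Fin q), S.card = n ∧ cut (Gr x) S = 0) →
          Nat.card Ω ≤ 2 ^ μ * Nat.card {ρ // (T ρ).value (a ρ) x ≠ 0}) →
        ∃ ρ, q ^ n ≤ (2 ^ μ * Fintype.card (W ρ)) ^ (Γ * g ^ 2)) ∧
    (∀ q n : ℕ, 2 ≤ n →
      ∃ (T : Net ℚ (E n) (Equiv.Perm (Fin q)) (Fin n → Fin q)) (a : (Fin n → Fin q) → ℚ),
        T.Linear ∧ (∀ e, T.reads e = 1) ∧ T.size = 2 * Fintype.card (E n) - 1 ∧
          ∀ x, T.value a x ≠ 0 ↔
            ∃ S : Finset (Fin n × Fin q), S.card = n ∧ cut (Gr x) S = 0) :=
  ⟨fun _ _ => regular, main_sse, fun q _ hn => upper_sse q hn⟩

end Pool.Agent.Results.MP_8d8c46_lc.TensorNetworks
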