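import Pool.Agent.V11201.PT.Sse

set_option autoImplicit false

/-!
# Small-set expansion: reductions whose output is a list of edges, by threshold functions and formulas

An NP-hardness proof for `SSE(η, δ)` gives in particular a reduction from parity. We consider reductions
whose output, a regular graph, is given by the list of its edges: for every `j < M` the `j`-th edge is a
function of the input `x ∈ {0,1}^N`. (The starting and earlier results `ConstantDepthReductions` and
`UnateReductions` are about the adjacency matrix.) The length `M` of the lists is arbitrary.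

1. Average sensitivity. In every reduction from the parity of `N` bits (of any complexity, with lists of
   any length) the average, over the inputs, of the number of variables whose flip changes the `j`-th
   edge of the list is at least `c N` for some `j`, `c = (1 - ε - η) m / |V|`, if there is a set of `m`
   vertices with expansion at most `ε` for even inputs, and all these sets have expansion at least
   `1 - η` for odd inputs.
2. If each edge of the list is determined by `k` unate bits (in each variable nondecreasing or
   nonincreasing, of any complexity; for instance linear threshold functions with arbitrary weights),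
   then `k ≥ c √N`.
3. If each edge is determined by `k` polynomial threshold functions of degree `t`, then
   `2 k ≥ c N ^ (1 / 2 ^ t)`.
4. If each edge is determined by `k` bits with de Morgan formulas of size `s`, then `k √s ≥ c N`.

For graphs of polynomial size and fixed `δ = m / |V|` an edge is described by `O(log N)` bits, so in 2 to 4
some of these bits are not functions of fewer than `c' √N / log N` unate bits, and not polynomial
threshold functions of degree less than `log log N - 2 log log log N`.

Idea of the proof. The lists of two neighbouring inputs differ in at least `c M` of their `M` entries,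
since at least `(1 - ε) d m / 2` edges of the yes instance, and at most `η d m / 2` edges of the no instance
lie in the set `S` for the yes instance, and `d m / 2 = M m / |V|`. So the sum of the average sensitivities
of the entries is at least `c N M`. The average sensitivity of a unate function is at most `√N` and that
of a formula of size `s` at most `√s` (Khrapchenko); for polynomial threshold functions the bound
`2 N ^ (1 - 1 / 2 ^ t)` of Diakonikolas, Raghavendra, Servedio and Tan is proved here by their
recursion.
-/

namespace Pool.Agent.Results.MP_8d8c46_lc.ThresholdReductions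

open Finset
open scoped Classical

/-- the degree of `v` in the graph with the edges `e 1, …, e M` (given as ordered pairs) -/
noncomputable def degree {V : Type} {M : ℕ} (e : Fin M → V × V) (v : V) : ℕ :=
  (univ.filter fun j => (e j).1 = v).card + (univ.filter fun j => (e j).2 = v).card

/-- the number of edges with exactly one end in `S` -/
noncomputable def boundary {V : Type} {M : ℕ} (e : Fin M → V × V) (S : Finset V) : ℕ :=
  (univ.filter fun j => ((e j).1 ∈ S ∧ (e j).2 ∉ S) ∨ ((e j).1 ∉ S ∧ (e j).2 ∈ S)).card

/-- The graphs `E x`, `x ∈ {0,1}^N`, with the vertex set `V`, each given by a list of `M` edges, are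
`d`-regular and a reduction from parity: if `x` has an even number of ones, then some set of `m` vertices
has expansion at most `ε`, and otherwise all sets of `m` vertices have expansion at least `1 - η`.
(Loops and multiple edges are allowed, so simple graphs are a special case.) -/
structure FromParity {V : Type} {N M : ℕ} (E : (Fin N → Bool) → Fin M → V × V) (d m : ℕ) (ε η : ℝ) :
    Prop where
  regular : ∀ x v, degree (E x) v = d
  even : ∀ x, Even (univ.filter fun i => x i = true).card →
    ∃ S : Finset V, S.card = m ∧ (boundary (E x) S : ℝ) ≤ ε * (d * m)
  odd : ∀ x, Odd (univ.filter fun i => x i = true).card →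
    ∀ S : Finset V, S.card = m → (1 - η) * (d * m) ≤ boundary (E x) S

/-- the function `e` is determined by the bits `g 1, …, g k` -/
def DeterminedBy {N k : ℕ} {β : Type} (e : (Fin N → Bool) → β) (g : Fin k → (Fin N → Bool) → Bool) : Prop :=
  ∀ x y, (∀ l, g l x = g l y) → e x = e y

/-- The average, over all inputs, of the number of variables whose flip changes the value of `e`. -/
noncomputable def averageSensitivity {N : ℕ} {β : Type} (e : (Fin N → Bool) → β) : ℝ :=
  (∑ x, ((univ.filter fun i => e (Function.update x i (!(x i))) ≠ e x).card : ℝ)) / 2 ^ N

/-- in every variable nondecreasing or nonincreasing -/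
def Unate {N : ℕ} (g : (Fin N → Bool) → Bool) : Prop :=
  ∀ i, (∀ x, g (Function.update x i false) = true → g (Function.update x i true) = true) ∨
    (∀ x, g (Function.update x i true) = true → g (Function.update x i false) = true)

/-- `g x` is true iff a real polynomial of degree at most `t` (multilinear, with the coefficients
`c S`) is nonnegative at `x`. -/
def PolynomialThreshold {N : ℕ} (t : ℕ) (g : (Fin N → Bool) → Bool) : Prop :=
  ∃ c : Finset (Fin N) → ℝ, (∀ S, t < S.card → c S = 0) ∧
    ∀ x, g x = true ↔ 0 ≤ ∑ S, if (∀ i ∈ S, x i = true) then c S else 0

/-- `g` has a de Morgan formula (AND, OR, literals) with at most `s` leaves. -/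
def FormulaSizeLe {N : ℕ} (s : ℕ) (g : (Fin N → Bool) → Bool) : Prop :=
  ∃ φ : Pool.Agent.V11201.PT.Fm N, φ.size ≤ s ∧ ∀ x, φ.eval x = g x

open Pool.Agent.V11201.PT (Inn bd inner_eq dm_eq)

/-- Let `x ↦ E x` be a reduction from the parity of `N` bits to `d`-regular graphs on `V`, `d ≥ 1`, given by
lists of `M` edges, such that some set of `m ≥ 1` vertices has expansion at most `ε` for even inputs, and
all these sets have expansion at least `1 - η` for odd inputs. Let `c = (1 - ε - η) m / |V|`.

1. Some edge of the list has average sensitivity at least `c N`.
2. If every edge of the list is determined by `k` unate bits, then `c √N ≤ k`.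
3. If every edge is determined by `k` polynomial threshold functions of degree `t`, then
`c N ^ (1 / 2 ^ t) ≤ 2 k`.
4. If every edge is determined by `k` bits with formulas of size `s`, then `c N ≤ k √s`. -/
theorem result : ∀ (V : Type) [Fintype V] (N M d m : ℕ) (E : (Fin N → Bool) → Fin M → V × V) (ε η : ℝ),
    1 ≤ N → 1 ≤ d → 1 ≤ m → FromParity E d m ε η →
    (∃ j, (1 - ε - η) * (m / Fintype.card V : ℝ) * N ≤ averageSensitivity fun x => E x j) ∧
    ∀ (k : ℕ) (g : Fin M → Fin k → (Fin N → Bool) → Bool), (∀ j, DeterminedBy (fun x => E x j) (g j)) →
      ((∀ j l, Unate (g j l)) → (1 - ε - η) * (m / Fintype.card V : ℝ) * Real.sqrt N ≤ k) ∧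
      (∀ t : ℕ, (∀ j l, PolynomialThreshold t (g j l)) →
        (1 - ε - η) * (m / Fintype.card V : ℝ) * (N : ℝ) ^ (1 / 2 ^ t : ℝ) ≤ 2 * k) ∧
      (∀ s : ℕ, (∀ j l, FormulaSizeLe s (g j l)) →
        (1 - ε - η) * (m / Fintype.card V : ℝ) * N ≤ k * Real.sqrt s) := by
  intro V _ N M d m E ε η hN hd hm hE
  have : Nonempty V := by
    obtain ⟨S, hS⟩ : ∃ S : Finset V, S.card = m := by
      by_cases h : Even (univ.filter fun i : Fin N => (fun _ => false : Fin N → Bool) i = true).card
      · obtain ⟨S, hS, _⟩ := hE.even _ h
        exact ⟨S, hS⟩
      · exact absurd (by simp) h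
    exact (card_pos.1 (by omega : 0 < S.card)).to_type
  have hyes : ∀ x, Even (univ.filter fun i => x i = true).card →
      ∃ a : {S : Finset V // S.card = m}, (1 - ε) * (m / Fintype.card V : ℝ) * M ≤
        (univ.filter fun j => Inn a.1 (E x j)).card := by
    intro x hx
    obtain ⟨S, hS, h⟩ := hE.even x hx
    refine ⟨⟨S, hS⟩, ?_⟩
    rw [inner_eq (hE.regular x) hS, mul_assoc, ← dm_eq (m := m) (hE.regular x)]
    have h' : (bd (E x) S : ℝ) ≤ ε * (d * m) := h
    linarith
  have hno : ∀ x, Odd (univ.filter fun i => x i = true).card →
      ∀ a : {S : Finset V // S.card = m}, ((univ.filter fun j => Inn a.1 (E x j)).card : ℝ) ≤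
        η * (m / Fintype.card V : ℝ) * M := by
    rintro x hx ⟨S, hS⟩
    rw [inner_eq (hE.regular x) hS, mul_assoc, ← dm_eq (m := m) (hE.regular x)]
    have h' : (1 - η) * (d * m) ≤ (bd (E x) S : ℝ) := hE.odd x hx S hS
    linarith
  have hc : (1 - ε - η) * (m / Fintype.card V : ℝ) =
      (1 - ε) * (m / Fintype.card V : ℝ) - η * (m / Fintype.card V : ℝ) := by ring
  have hM : 0 < M := by
    have h1 := Pool.Agent.V11201.PT.two_M (hE.regular fun _ => false)
    have h2 : 0 < d * Fintype.card V := Nat.mul_pos (by omega) Fintype.card_pos
    omega
  rw [hc]
  refine ⟨?_, fun k g hg => ⟨fun h => ?_, fun t h => ?_, fun s h => ?_⟩⟩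
  · obtain ⟨j, hj⟩ := Pool.Agent.V11201.PT.exists_entry
      (S := fun (a : {S : Finset V // S.card = m}) e => Inn a.1 e) hM hyes hno
    refine ⟨j, ?_⟩
    unfold averageSensitivity
    rw [le_div_iff₀ (by positivity)]
    refine hj.trans (le_of_eq ?_)
    unfold Pool.Agent.V11201.PT.TS
    push_cast
    rfl
  · exact Pool.Agent.V11201.PT.list_unate
      (S := fun (a : {S : Finset V // S.card = m}) e => Inn a.1 e) hN hM hyes hno hg h
  · exact Pool.Agent.V11201.PT.list_ptf
      (S := fun (a : {S : Finset V // S.card = m}) e => Inn a.1 e) hN hM hyes hno t hg h
  · choose F hF hF' using h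
    refine Pool.Agent.V11201.PT.list_fm (S := fun (a : {S : Finset V // S.card = m}) e => Inn a.1 e)
      hM hyes hno s (F := F) (fun j x y hxy => hg j x y fun l => ?_) hF
    rw [← hF', ← hF']
    exact hxy l

end Pool.Agent.Results.MP_8d8c46_lc.ThresholdReductions
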