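import Pool.Agent.V11201.GP.Csp

set_option autoImplicit false

/-!
# The small-set expansion conjecture and unate reductions

`cut G S` (`Pool/Agent/Y601/SSE/Defs.lean`) is the number of pairs of adjacent vertices `u ∈ S`,
`v ∉ S`.

An NP-hardness proof for `SSE(η, δ)` gives in particular a reduction from parity. We consider
reductions whose output, a regular graph, is given by its adjacency matrix.

A bit is unate if in each variable it is nondecreasing or nonincreasing (different variables may
have different directions, and the directions may be different for different bits); nothing is assumed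
about its complexity. Monotone functions, threshold functions with arbitrary real weights, and
conjunctions of literals are unate; a disjunctive normal form with `k` terms is a disjunction of `k`
unate bits.

Result: if all entries of the adjacency matrix are disjunctions of `k` unate bits, a reduction from
the parity of `N` bits to `SSE(η, δ)` needs at least `exp (c² N / (4 k²)) / √k` vertices, where
`c = (1 - 2 η) δ / 2`. So in reductions of polynomial size some entry is not a disjunction of fewer
than `c' √(N / log N)` unate bits, of any complexity. The starting result `ConstantDepthReductions`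
of this problem treats entries computed by circuits of constant depth; unate bits can be very complex,
and circuits of constant depth need not be disjunctions of few unate bits.

Idea of the proof. A yes instance and a no instance differ in at least a fraction `c` of the sum of
their numbers of edges (starting library, `Pool.Agent.Y601.SSE.differ`), so the flip of one variable
destroys on average a fraction `c` of the edges. The number of sensitive variables of a unate bit,
summed over the inputs at which it is one, is the sum of a linear form with coefficients `± 1` in the
`± 1` variables over these inputs; and such linear forms are large only at exponentially few inputs.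
-/

namespace Pool.Agent.Results.MP_8d8c46_lc.UnateReductions

open Finset Pool.Agent.Y601.SSE
open scoped Classical

/-- Each of the bits `F x q` is, in each of the variables, nondecreasing or nonincreasing. -/
def Unate {N : ℕ} {Q : Type} (F : (Fin N → Bool) → Q → Prop) : Prop :=
  ∀ q i, (∀ x, F (Function.update x i false) q → F (Function.update x i true) q) ∨
    (∀ x, F (Function.update x i true) q → F (Function.update x i false) q)

/-- For every input `x ∈ {0,1}^N` let `G x` be a `d x`-regular graph with the vertex set `V`,
`d x ≥ 1`. Let `1 ≤ m ≤ |V|`, `ε, η ≥ 0` and `ε + η < 1`. Suppose that some set of `m` vertices of `G x`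
has expansion at most `ε` whenever `x` has an even number of ones, and all sets of `m` vertices of
`G x` have expansion at least `1 - η` whenever `x` has an odd number of ones. If for all vertices `u`,
`v` the bit `(G x).Adj u v`, as a function of `x`, is the disjunction of `k` unate bits
`F x ((u, v), j)`, then `exp (c² N / (2 k²)) ≤ k |V|²` with `c = (1 - ε - η) (m / |V|) / 2`. -/
theorem result {N k m : ℕ} {V : Type} [Fintype V] (G : (Fin N → Bool) → SimpleGraph V)
    (F : (Fin N → Bool) → (V × V) × Fin k → Prop) (hF : Unate F)
    (hGF : ∀ x u v, (G x).Adj u v ↔ ∃ j, F x ((u, v), j)) (d : (Fin N → Bool) → ℕ)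
    (hG : ∀ x v, (univ.filter fun w => (G x).Adj v w).card = d x) (hd : ∀ x, 1 ≤ d x)
    (hm : 1 ≤ m) (hmV : m ≤ Fintype.card V) (ε η : ℝ) (hε : 0 ≤ ε) (hη : 0 ≤ η) (hεη : ε + η < 1)
    (hyes : ∀ x, Even (univ.filter fun i => x i = true).card →
      ∃ S : Finset V, S.card = m ∧ (cut (G x) S : ℝ) ≤ ε * (d x * m))
    (hno : ∀ x, Odd (univ.filter fun i => x i = true).card →
      ∀ S : Finset V, S.card = m → (1 - η) * (d x * m) ≤ cut (G x) S) :
    Real.exp (((1 - ε - η) * (m / Fintype.card V) / 2) ^ 2 * N / (2 * k ^ 2)) ≤
      k * (Fintype.card V : ℝ) ^ 2 := by
  have hV : (0 : ℝ) < Fintype.card V := by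
    have : 0 < Fintype.card V := by omega
    exact_mod_cast this
  obtain ⟨v₀⟩ : Nonempty V := Fintype.card_pos_iff.1 (by omega)
  have hnum : ∀ x, (Pool.Agent.V11201.GP.num fun p : V × V => (G x).Adj p.1 p.2) =
      d x * Fintype.card V := fun x => edges_eq (hG x)
  have h := Pool.Agent.V11201.GP.unate (k := k) (U := F) hF
    (A := fun x (p : V × V) => (G x).Adj p.1 p.2)
    (fun x p => hGF x p.1 p.2) ?_ (c := (1 - ε - η) * (m / Fintype.card V) / 2) ?_ ?_
  · rw [Fintype.card_fin, Fintype.card_prod] at h
    push_cast at h
    calc _ ≤ (k : ℝ) * (Fintype.card V * Fintype.card V) := h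
      _ = _ := by ring
  · intro x
    have h1 := hG x v₀
    have h2 := hd x
    obtain ⟨w, hw⟩ := card_pos.1 (show 0 < (univ.filter fun w => (G x).Adj v₀ w).card by omega)
    exact ⟨(v₀, w), (mem_filter.1 hw).2⟩
  · have : (0 : ℝ) ≤ m := Nat.cast_nonneg _
    have h1 : 0 ≤ 1 - ε - η := by linarith
    positivity
  · intro i x
    have hlost : ∀ A B : SimpleGraph V,
        (Pool.Agent.V11201.GP.only (fun p : V × V => A.Adj p.1 p.2)
          fun p : V × V => B.Adj p.1 p.2) = lost A B := by
      intro A B
      unfold Pool.Agent.V11201.GP.only lost
      congr 1
    rw [hnum, hnum, hlost, hlost]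
    push_cast
    have e1 : (1 - ε - η) * (m / Fintype.card V) / 2 * ((d x : ℝ) * Fintype.card V +
        d (Y601.SSE.flip i x) * Fintype.card V) =
        (1 - ε - η) * m * ((d x : ℝ) + d (Y601.SSE.flip i x)) / 2 := by
      field_simp
    rw [e1]
    have hpar := odd_flip i x
    by_cases hodd : Odd (univ.filter fun j => x j = true).card
    · have hev : Even (univ.filter fun j => Y601.SSE.flip i x j = true).card := by
        rw [← Nat.not_odd_iff_even, hpar]
        exact not_not.2 hodd
      have h1 := differ (hG (Y601.SSE.flip i x)) (hG x) hmV ε η hε hη hεη (hyes _ hev) (hno _ hodd)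
      linarith
    · have hod : Odd (univ.filter fun j => Y601.SSE.flip i x j = true).card := hpar.2 hodd
      exact differ (hG x) (hG (Y601.SSE.flip i x)) hmV ε η hε hη hεη
        (hyes _ (Nat.not_odd_iff_even.1 hodd)) (hno _ hod)

end Pool.Agent.Results.MP_8d8c46_lc.UnateReductions
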